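import Pool.Agent.U684.RdQ.Sym

set_option autoImplicit false

namespace Pool.Agent.U684.RdQ

open Filter

lemma ev_notin (x : ℚ) (V : Finset ℚ) :
    ∀ᶠ n in (hyperfilter ℕ : Filter ℕ), x + 1 / 7 ^ n ∉ V := by
  have hinj : Function.Injective (fun n : ℕ => x + 1 / (7 : ℚ) ^ n) := by
    intro a b hab
    simp only [add_right_inj, one_div, inv_inj] at hab
    exact pow_right_injective₀ (by norm_num : (0 : ℚ) < 7) (by norm_num) hab
  have hfin : {n : ℕ | x + 1 / (7 : ℚ) ^ n ∈ V}.Finite :=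
    Set.Finite.preimage hinj.injOn V.finite_toSet
  have h : ∀ᶠ n in (cofinite : Filter ℕ), x + 1 / (7 : ℚ) ^ n ∉ V := by
    rw [Filter.eventually_cofinite]
    simpa using hfin
  exact h.filter_mono hyperfilter_le_cofinite

lemma InG.add {x y : ℚ} (hx : InG x) (hy : InG y) : InG (x + y) := by
  obtain ⟨k, a, ha⟩ := hx
  obtain ⟨l, b, hb⟩ := hy
  refine ⟨k + l, a * 7 ^ l + b * 7 ^ k, ?_⟩
  push_cast
  rw [← ha, ← hb, pow_add]; ring

/-- No two-colouring of the rationals is bad. -/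
theorem not_bad (c : ℚ → Bool) : ¬ Bad c := by
  classical
  intro hc
  -- uniformity for the family `w u a = !(phi (a + u))`, `u ∈ G`
  obtain ⟨V, U, ⟨u1, hu1⟩, hunif⟩ := unif hc
    (fun (u : {u : ℚ // InG u}) (a : ℚ) => !(phi c (a + u.1))) ⟨0, 0, 0, by simp⟩
  -- first symmetry
  obtain ⟨s, hsG, hs⟩ := sym hc (U.image (fun a => a + u1))
  have hs' : ∀ a ∈ U, phi c (a + (u1 + s)) = !(phi c (a + u1)) := by
    intro a ha
    have := (hs (a + u1) (Finset.mem_image_of_mem _ ha)).1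
    rw [← this]; congr 1; ring
  set g : ℚ := u1 + s with hg
  have hgG : InG g := hu1.add hsG
  -- single function
  obtain ⟨V', U', _, hunif'⟩ := unif hc (fun (_ : Unit) (a : ℚ) => !(phi c (a + g))) ()
  -- second symmetry
  obtain ⟨t, htG, ht⟩ := sym hc ((U ∪ V ∪ V').image (fun a => a + g) ∪ {2 * g})
  have ht1 : ∀ a ∈ U ∪ V ∪ V', phi c (a + (g + t)) = !(phi c (a + g)) := by
    intro a ha
    have := (ht (a + g) (Finset.mem_union_left _ (Finset.mem_image_of_mem _ ha))).1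
    rw [← this]; congr 1; ring
  have ht2 : psi c (2 * g + 2 * t) = !(psi c (2 * g)) :=
    (ht (2 * g) (Finset.mem_union_right _ (Finset.mem_singleton_self _))).2
  set u : ℚ := g + t with hu
  have huG : InG u := hgG.add htG
  have hUV : ∀ a ∈ U, a ∈ U ∪ V ∪ V' := fun a ha =>
    Finset.mem_union_left _ (Finset.mem_union_left _ ha)
  have hVV : ∀ a ∈ V, a ∈ U ∪ V ∪ V' := fun a ha =>
    Finset.mem_union_left _ (Finset.mem_union_right _ ha)
  have hVV' : ∀ a ∈ V', a ∈ U ∪ V ∪ V' := fun a ha => Finset.mem_union_right _ ha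
  -- (A): phi (g + u + 7^{-n}) = psi (2 g)
  have hA : ∀ᶠ n in (hyperfilter ℕ : Filter ℕ), phi c (g + u + 1 / 7 ^ n) = psi c (2 * g) := by
    have h1 : ∀ᶠ n in (hyperfilter ℕ : Filter ℕ), ∀ v ∈ V,
        c (v + g + 1 / 7 ^ n) = phi c (v + g) := by
      rw [Filter.eventually_all_finset]
      intro v _
      exact phi_spec c (v + g)
    filter_upwards [h1, ev_notin g V, psi_spec c (2 * g)] with n hn1 hn2 hn3
    have h2 := hunif ⟨u, huG⟩ (by
      intro a ha
      simp only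
      rw [ht1 a (hUV a ha), hs' a ha, Bool.not_not]) (g + 1 / 7 ^ n) hn2 (by
      intro v hv
      simp only
      rw [ht1 v (hVV v hv), Bool.not_not, ← hn1 v hv]
      congr 1; ring)
    simp only at h2
    have e1 : g + 1 / 7 ^ n + u = g + u + 1 / 7 ^ n := by ring
    have e2 : 2 * (g + 1 / 7 ^ n) = 2 * g + 2 * (1 / 7 ^ n) := by ring
    rw [e1, e2, hn3] at h2
    revert h2
    cases phi c (g + u + 1 / 7 ^ n) <;> cases psi c (2 * g) <;> simp
  -- (B): phi (g + u + 7^{-n}) = ! psi (2 g)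
  have hB : ∀ᶠ n in (hyperfilter ℕ : Filter ℕ), phi c (g + u + 1 / 7 ^ n) = !(psi c (2 * g)) := by
    have h1 : ∀ᶠ n in (hyperfilter ℕ : Filter ℕ), ∀ v ∈ V',
        c (v + u + 1 / 7 ^ n) = phi c (v + u) := by
      rw [Filter.eventually_all_finset]
      intro v _
      exact phi_spec c (v + u)
    filter_upwards [h1, ev_notin u V', psi_spec c (2 * u)] with n hn1 hn2 hn3
    have h2 := hunif' () (fun a _ => rfl) (u + 1 / 7 ^ n) hn2 (by
      intro v hv
      rw [← ht1 v (hVV' v hv), ← hn1 v hv]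
      congr 1; ring)
    have e1 : u + 1 / 7 ^ n + g = g + u + 1 / 7 ^ n := by ring
    have e2 : 2 * (u + 1 / 7 ^ n) = 2 * u + 2 * (1 / 7 ^ n) := by ring
    have e3 : 2 * u = 2 * g + 2 * t := by rw [hu]; ring
    rw [e1, e2, hn3, e3, ht2] at h2
    revert h2
    cases phi c (g + u + 1 / 7 ^ n) <;> cases psi c (2 * g) <;> simp
  obtain ⟨n, hn1, hn2⟩ := (hA.and hB).exists
  rw [hn1] at hn2
  cases h : psi c (2 * g) <;> simp [h] at hn2

end Pool.Agent.U684.RdQ
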