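import Pool.Agent.U684.RdQ.Basic

set_option autoImplicit false

namespace Pool.Agent.U684.RdQ

open Filter

/-- Recursion principle: a property of finite sets that always extends. -/
lemma exists_seq_of_extend (c : ℚ → Bool) (good : Finset ℚ → Prop) (h0 : good ∅)
    (hext : ∀ s, good s → ∃ x, x ∉ s ∧ good (insert x s) ∧ ∀ v ∈ s, c (x + v) = c (2 * v)) :
    ∃ x : ℕ → ℚ, Function.Injective x ∧ ∀ m n, m < n → c (x n + x m) = c (2 * x m) := by
  classical
  choose! nx hnx using hext
  let S : ℕ → Finset ℚ := fun n => Nat.rec ∅ (fun _ s => insert (nx s) s) n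
  have hS : ∀ n, S (n + 1) = insert (nx (S n)) (S n) := fun n => rfl
  have hgood : ∀ n, good (S n) := by
    intro n
    induction n with
    | zero => exact h0
    | succ k ih => rw [hS]; exact (hnx _ ih).2.1
  have hmono : ∀ m n, m ≤ n → S m ⊆ S n := by
    intro m n hmn
    induction hmn with
    | refl => exact Finset.Subset.refl _
    | step _ ih => rw [hS]; exact ih.trans (Finset.subset_insert _ _)
  have hmem : ∀ m n, m < n → nx (S m) ∈ S n := by
    intro m n hmn
    apply hmono (m + 1) n hmn
    rw [hS]; exact Finset.mem_insert_self _ _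
  refine ⟨fun n => nx (S n), ?_, ?_⟩
  · intro a b hab
    by_contra hne
    rcases lt_or_gt_of_ne hne with h | h
    · have h1 := hmem a b h
      have h2 := (hnx _ (hgood b)).1
      apply h2
      simp only at hab
      rw [← hab]; exact h1
    · have h1 := hmem b a h
      have h2 := (hnx _ (hgood a)).1
      apply h2
      simp only at hab
      rw [hab]; exact h1
  · intro m n hmn
    exact (hnx _ (hgood n)).2.2 _ (hmem m n hmn)

/-- The category-type lemma. -/
lemma unif {ι : Type*} {c : ℚ → Bool} (hc : Bad c) (w : ι → ℚ → Bool) (i0 : ι) :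
    ∃ (V U : Finset ℚ) (i1 : ι), ∀ i, (∀ a ∈ U, w i a = w i1 a) →
      ∀ x, x ∉ V → (∀ v ∈ V, c (x + v) = w i v) → w i x = !(c (2 * x)) := by
  classical
  by_contra hcon
  push Not at hcon
  obtain ⟨x, hxi, hx⟩ := exists_seq_of_extend c
    (fun s => ∃ i, ∀ v ∈ s, w i v = c (2 * v)) ⟨i0, by simp⟩ (by
      rintro s ⟨i, hi⟩
      obtain ⟨j, hj1, x, hxV, hx1, hx2⟩ := hcon s s i
      refine ⟨x, hxV, ⟨j, ?_⟩, ?_⟩
      · intro v hv
        rw [Finset.mem_insert] at hv
        rcases hv with rfl | hv
        · revert hx2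
          cases w j v <;> cases c (2 * v) <;> simp
        · rw [hj1 v hv, hi v hv]
      · intro v hv
        rw [hx1 v hv, hj1 v hv, hi v hv])
  -- pigeonhole along the hyperfilter
  set e := ulim (fun n => c (2 * x n)) with he
  have hev : ∀ᶠ n in (hyperfilter ℕ : Filter ℕ), c (2 * x n) = e :=
    ulim_spec (fun n => c (2 * x n))
  have hl := two_lim hc 0 x hxi e (by simpa using hev)
  obtain ⟨m, hm1, hm2⟩ := (hev.and hl).exists
  obtain ⟨n, hn1, hn2⟩ := (hm2.and (ev_ne m)).exists
  have h3 := hx m n hn2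
  have h4 : c (0 + x m + x n) = c (x n + x m) := by congr 1; ring
  rw [h4, h3, hm1] at hn1
  cases e <;> simp at hn1

end Pool.Agent.U684.RdQ
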