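import Mathlib

set_option autoImplicit false

namespace Pool.Agent.U684.RdQ

open Filter

/-- `c` is a bad colouring: no infinite `X` has `X + X` monochromatic. -/
def Bad (c : ℚ → Bool) : Prop :=
  ∀ X : Set ℚ, X.Infinite → ¬ ∃ i : Bool, ∀ x ∈ X, ∀ y ∈ X, c (x + y) = i

/-- Sequence form of badness (with a shift). -/
lemma bad_seq {c : ℚ → Bool} (hc : Bad c) (z : ℚ) (e : Bool) (x : ℕ → ℚ)
    (hx : Function.Injective x) (h1 : ∀ n, c (z + 2 * x n) = e)
    (h2 : ∀ m n, m < n → c (z + x m + x n) = e) : False := by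
  apply hc (Set.range (fun n => z / 2 + x n))
  · apply Set.infinite_range_of_injective
    intro a b hab
    exact hx (by simpa using hab)
  · refine ⟨e, ?_⟩
    rintro _ ⟨m, rfl⟩ _ ⟨n, rfl⟩
    rcases lt_trichotomy m n with h | h | h
    · have := h2 m n h
      rw [← this]; congr 1; ring
    · subst h
      have := h1 m
      rw [← this]; congr 1; ring
    · have := h2 n m h
      rw [← this]; congr 1; ring

lemma bool_ne_iff (a b : Bool) : a ≠ b ↔ a = !b := by
  cases a <;> cases b <;> simp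

/-- The limit of a Boolean sequence along the hyperfilter. -/
noncomputable def ulim (f : ℕ → Bool) : Bool := by
  classical
  exact decide (∀ᶠ n in (hyperfilter ℕ : Filter ℕ), f n = true)

lemma ulim_spec (f : ℕ → Bool) : ∀ᶠ n in (hyperfilter ℕ : Filter ℕ), f n = ulim f := by
  classical
  unfold ulim
  by_cases h : ∀ᶠ n in (hyperfilter ℕ : Filter ℕ), f n = true
  · simp [h]
  · have h' : ∀ᶠ n in (hyperfilter ℕ : Filter ℕ), ¬ f n = true :=
      Ultrafilter.eventually_not.mpr h
    simp only [h, decide_false]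
    filter_upwards [h'] with n hn
    simpa using hn

lemma ulim_eq {f : ℕ → Bool} {e : Bool}
    (h : ∀ᶠ n in (hyperfilter ℕ : Filter ℕ), f n = e) : ulim f = e := by
  have h2 := (ulim_spec f).and h
  obtain ⟨n, hn1, hn2⟩ := h2.exists
  rw [← hn1, hn2]

lemma ev_ne (m : ℕ) : ∀ᶠ n in (hyperfilter ℕ : Filter ℕ), m < n := by
  have h : ∀ᶠ n in (cofinite : Filter ℕ), m < n := by
    rw [Nat.cofinite_eq_atTop]
    exact eventually_gt_atTop m
  exact h.filter_mono hyperfilter_le_cofinite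

/-- Lemma 1. -/
lemma two_lim {c : ℚ → Bool} (hc : Bad c) (z : ℚ) (y : ℕ → ℚ) (hy : Function.Injective y)
    (e : Bool) (h : ∀ᶠ n in (hyperfilter ℕ : Filter ℕ), c (z + 2 * y n) = e) :
    ∀ᶠ m in (hyperfilter ℕ : Filter ℕ), ∀ᶠ n in (hyperfilter ℕ : Filter ℕ),
      c (z + y m + y n) = !e := by
  by_contra hcon
  have hcon' : ∀ᶠ m in (hyperfilter ℕ : Filter ℕ), ¬ ∀ᶠ n in (hyperfilter ℕ : Filter ℕ),
      c (z + y m + y n) = !e := Ultrafilter.eventually_not.mpr hcon
  have hcon2 : ∀ᶠ m in (hyperfilter ℕ : Filter ℕ), ∀ᶠ n in (hyperfilter ℕ : Filter ℕ),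
      c (z + y m + y n) = e := by
    filter_upwards [hcon'] with m hm
    have := Ultrafilter.eventually_not.mpr hm
    filter_upwards [this] with n hn
    revert hn
    cases c (z + y m + y n) <;> cases e <;> simp
  obtain ⟨f, hf1, hf2⟩ := exists_seq_of_forall_finset_exists
    (fun m : ℕ => c (z + 2 * y m) = e ∧ ∀ᶠ n in (hyperfilter ℕ : Filter ℕ),
      c (z + y m + y n) = e)
    (fun m n => m < n ∧ c (z + y m + y n) = e)
    (by
      intro s hs
      have h3 : ∀ᶠ n in (hyperfilter ℕ : Filter ℕ), ∀ m ∈ s, (m < n ∧ c (z + y m + y n) = e) := by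
        rw [Filter.eventually_all_finset]
        intro m hm
        exact (ev_ne m).and (hs m hm).2
      obtain ⟨n, hn1, hn2, hn3⟩ := ((h.and hcon2).and h3).exists.imp
        (fun n hn => (⟨hn.1.1, hn.1.2, hn.2⟩ : _ ∧ _ ∧ _))
      exact ⟨n, ⟨hn1, hn2⟩, hn3⟩)
  have hfm : StrictMono f := by
    intro a b hab
    exact (hf2 a b hab).1
  exact bad_seq hc z e (fun k => y (f k)) (hy.comp hfm.injective)
    (fun n => (hf1 n).1) (fun m n hmn => (hf2 m n hmn).2)

end Pool.Agent.U684.RdQ
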