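import Pool.Agent.U684.RdQ.BC

set_option autoImplicit false

namespace Pool.Agent.U684.RdQ

open Filter

/-- `x` lies in `ℤ[1/7]`. -/
def InG (x : ℚ) : Prop := ∃ (k : ℕ) (a : ℤ), x * 7 ^ k = a

/-- `v` is a good displacement for `y` on the window `U`. -/
def Good (c : ℚ → Bool) (U : Finset ℚ) (y v : ℚ) : Prop :=
  ∀ a ∈ U, c (y + v + a) = !(c (2 * y + a)) ∧ c (2 * y + 2 * v + a) = !(c (4 * y + a))

lemma claimA {c : ℚ → Bool} (hc : Bad c) (U : Finset ℚ) :
    ∃ V : Finset ℚ, (∀ v ∈ V, InG v) ∧ ∀ y, InG y → y ∉ V → ∃ v ∈ V, Good c U y v := by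
  classical
  by_contra hcon
  push Not at hcon
  obtain ⟨f, hf1, hf2⟩ := exists_seq_of_forall_finset_exists InG
    (fun v y => v ≠ y ∧ ¬ Good c U y v)
    (by
      intro s hs
      obtain ⟨y, hy1, hy2, hy3⟩ := hcon s hs
      exact ⟨y, hy1, fun v hv => ⟨fun h => hy2 (h ▸ hv), hy3 v hv⟩⟩)
  have hfi : Function.Injective f := by
    intro a b hab
    by_contra hne
    rcases lt_or_gt_of_ne hne with h | h
    · exact (hf2 a b h).1 hab
    · exact (hf2 b a h).1 hab.symm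
  have hfi2 : Function.Injective (fun n => 2 * f n) := by
    intro a b hab
    apply hfi
    simp only at hab
    linarith
  have h1 : ∀ a ∈ U, ∀ᶠ m in (hyperfilter ℕ : Filter ℕ), ∀ᶠ n in (hyperfilter ℕ : Filter ℕ),
      c (a + f m + f n) = !(ulim (fun n => c (a + 2 * f n))) := by
    intro a _
    exact two_lim hc a f hfi _ (ulim_spec (fun n => c (a + 2 * f n)))
  have h2 : ∀ a ∈ U, ∀ᶠ m in (hyperfilter ℕ : Filter ℕ), ∀ᶠ n in (hyperfilter ℕ : Filter ℕ),
      c (a + 2 * f m + 2 * f n) = !(ulim (fun n => c (a + 2 * (2 * f n)))) := by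
    intro a _
    exact two_lim hc a (fun n => 2 * f n) hfi2 _ (ulim_spec (fun n => c (a + 2 * (2 * f n))))
  rw [← Filter.eventually_all_finset] at h1 h2
  obtain ⟨m, hm1, hm2⟩ := (h1.and h2).exists
  rw [← Filter.eventually_all_finset] at hm1 hm2
  have h3 : ∀ᶠ n in (hyperfilter ℕ : Filter ℕ), ∀ a ∈ U,
      c (a + 2 * f n) = ulim (fun n => c (a + 2 * f n)) := by
    rw [Filter.eventually_all_finset]
    intro a _
    exact ulim_spec (fun n => c (a + 2 * f n))
  have h4 : ∀ᶠ n in (hyperfilter ℕ : Filter ℕ), ∀ a ∈ U,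
      c (a + 2 * (2 * f n)) = ulim (fun n => c (a + 2 * (2 * f n))) := by
    rw [Filter.eventually_all_finset]
    intro a _
    exact ulim_spec (fun n => c (a + 2 * (2 * f n)))
  obtain ⟨n, ⟨⟨⟨⟨hn1, hn2⟩, hn3⟩, hn4⟩, hn5⟩⟩ :=
    ((((hm1.and hm2).and h3).and h4).and (ev_ne m)).exists
  apply (hf2 m n hn5).2
  intro a ha
  constructor
  · have e1 : f n + f m + a = a + f m + f n := by ring
    have e2 : 2 * f n + a = a + 2 * f n := by ring
    rw [e1, e2, hn1 a ha, hn3 a ha]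
  · have e1 : 2 * f n + 2 * f m + a = a + 2 * f m + 2 * f n := by ring
    have e2 : 4 * f n + a = a + 2 * (2 * f n) := by ring
    rw [e1, e2, hn2 a ha, hn4 a ha]

end Pool.Agent.U684.RdQ
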