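import Pool.Agent.U684.RdQ.ClaimA

set_option autoImplicit false

namespace Pool.Agent.U684.RdQ

open Filter

/-- Common denominator of a finite subset of `ℤ[1/7]`. -/
lemma common_exp (V : Finset ℚ) (hV : ∀ v ∈ V, InG v) :
    ∃ K : ℕ, ∀ v ∈ V, ∃ k : ℤ, v * 7 ^ K = k := by
  classical
  induction V using Finset.induction_on with
  | empty => exact ⟨0, by simp⟩
  | insert x s hx ih =>
    obtain ⟨K, hK⟩ := ih (fun v hv => hV v (Finset.mem_insert_of_mem hv))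
    obtain ⟨k, a, hka⟩ := hV x (Finset.mem_insert_self _ _)
    refine ⟨K + k, ?_⟩
    intro v hv
    rw [Finset.mem_insert] at hv
    rcases hv with rfl | hv
    · refine ⟨a * 7 ^ K, ?_⟩
      rw [pow_add]; push_cast; rw [← hka]; ring
    · obtain ⟨j, hj⟩ := hK v hv
      refine ⟨j * 7 ^ k, ?_⟩
      rw [pow_add]; push_cast; rw [← hj]; ring

/-- A common bound of a finite set. -/
lemma common_bound (V : Finset ℚ) : ∃ R : ℕ, ∀ v ∈ V, |v| ≤ R := by
  classical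
  induction V using Finset.induction_on with
  | empty => exact ⟨0, by simp⟩
  | insert x s hx ih =>
    obtain ⟨R, hR⟩ := ih
    obtain ⟨k, hk⟩ := exists_nat_ge |x|
    refine ⟨R + k, ?_⟩
    intro v hv
    rw [Finset.mem_insert] at hv
    push_cast
    rcases hv with rfl | hv
    · have : (0 : ℚ) ≤ R := Nat.cast_nonneg R
      linarith
    · have := hR v hv
      have h2 : (0 : ℚ) ≤ k := Nat.cast_nonneg k
      linarith

/-- One step of the halving walk. -/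
lemma step {c : ℚ → Bool} (W U V : Finset ℚ)
    (hU : ∀ a ∈ W, a ∈ U ∧ a + 1 ∈ U ∧ a + 2 ∈ U)
    (hA : ∀ y, InG y → y ∉ V → ∃ v ∈ V, Good c U y v)
    (K R m : ℕ) (hm : 1 ≤ m)
    (hK : ∀ v ∈ V, ∃ k : ℤ, v * 7 ^ K = k) (hR : ∀ v ∈ V, |v| ≤ R)
    (b : ℤ) (i : ℕ) (hb : (7 : ℤ) ^ m ∣ 2 ^ i * b - 1)
    (hbd : |b| ≤ (2 * R + 3) * 7 ^ (K + m)) :
    ∃ b' : ℤ, (7 : ℤ) ^ m ∣ 2 ^ (i + 1) * b' - 1 ∧ |b'| ≤ (2 * R + 3) * 7 ^ (K + m) ∧
      ∀ a ∈ W, c ((b' : ℚ) / 7 ^ (K + m) + a) = !(c ((b : ℚ) / 7 ^ (K + m) + a)) ∧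
        c (2 * ((b' : ℚ) / 7 ^ (K + m)) + a) = !(c (2 * ((b : ℚ) / 7 ^ (K + m)) + a)) := by
  -- parity correction
  have hodd : Odd ((7 : ℤ) ^ (K + m)) := by
    apply Odd.pow; decide
  obtain ⟨d, b'', hd, hbb⟩ : ∃ (d b'' : ℤ), (d = 0 ∨ d = 1) ∧ b = 2 * b'' + d * 7 ^ (K + m) := by
    rcases Int.even_or_odd b with ⟨r, hr⟩ | hbo
    · exact ⟨0, r, Or.inl rfl, by rw [hr]; ring⟩
    · obtain ⟨r, hr⟩ := hbo.sub_odd hodd
      exact ⟨1, r, Or.inr rfl, by linarith⟩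
  have h7 : (0 : ℚ) < 7 ^ (K + m) := by positivity
  have h7K : (0 : ℚ) < 7 ^ K := by positivity
  have h7z : (0 : ℤ) < 7 ^ (K + m) := by positivity
  have h7mz : (0 : ℤ) < 7 ^ m := by positivity
  set y : ℚ := (b'' : ℚ) / 7 ^ (K + m) with hy
  have hyG : InG y := ⟨K + m, b'', by rw [hy]; field_simp⟩
  have hyV : y ∉ V := by
    intro hmem
    obtain ⟨k, hk⟩ := hK y hmem
    have h1 : (b'' : ℚ) = k * 7 ^ m := by
      rw [← hk, hy, pow_add]
      field_simp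
    have h2 : b'' = k * 7 ^ m := by exact_mod_cast h1
    have h3 : (7 : ℤ) ^ m ∣ 2 ^ i * b := by
      rw [hbb, h2, pow_add]
      exact ⟨2 ^ i * (2 * k + d * 7 ^ K), by ring⟩
    have h4 : (7 : ℤ) ^ m ∣ 1 := by
      have := dvd_sub h3 hb
      simpa using this
    have h5 : (7 : ℤ) ∣ 1 := dvd_trans (dvd_pow_self 7 (by omega)) h4
    norm_num at h5
  obtain ⟨v, hv, hgood⟩ := hA y hyG hyV
  obtain ⟨k, hk⟩ := hK v hv
  have hvR := hR v hv
  refine ⟨b'' + k * 7 ^ m + d * 7 ^ (K + m), ?_, ?_, ?_⟩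
  · have : (2 : ℤ) ^ (i + 1) * (b'' + k * 7 ^ m + d * 7 ^ (K + m)) - 1 =
      (2 ^ i * b - 1) + 7 ^ m * (2 ^ i * (2 * k + d * 7 ^ K)) := by
      rw [hbb, pow_succ, pow_add]; ring
    rw [this]
    exact dvd_add hb (dvd_mul_right _ _)
  · -- bound
    have hk2 : |(k : ℚ)| ≤ R * 7 ^ K := by
      rw [← hk, abs_mul, abs_of_pos h7K]
      exact mul_le_mul_of_nonneg_right hvR h7K.le
    have hk3 : |k| ≤ R * 7 ^ K := by exact_mod_cast hk2
    have hk4 : |k * 7 ^ m| ≤ R * 7 ^ (K + m) := by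
      rw [abs_mul, abs_of_pos h7mz, pow_add, ← mul_assoc]
      exact mul_le_mul_of_nonneg_right hk3 h7mz.le
    have hd1 : |d * 7 ^ (K + m)| ≤ 7 ^ (K + m) := by
      rcases hd with rfl | rfl
      · simp only [zero_mul, abs_zero]; exact h7z.le
      · rw [one_mul, abs_of_pos h7z]
    have h2b : 2 * |b''| ≤ |b| + 7 ^ (K + m) := by
      have : 2 * b'' = b - d * 7 ^ (K + m) := by rw [hbb]; ring
      calc 2 * |b''| = |2 * b''| := by rw [abs_mul]; norm_num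
        _ = |b - d * 7 ^ (K + m)| := by rw [this]
        _ ≤ |b| + |d * 7 ^ (K + m)| := abs_sub _ _
        _ ≤ |b| + 7 ^ (K + m) := by linarith
    have h3 : |b'' + k * 7 ^ m + d * 7 ^ (K + m)| ≤ |b''| + |k * 7 ^ m| + |d * 7 ^ (K + m)| :=
      abs_add_three _ _ _
    nlinarith
  · intro a ha
    obtain ⟨u0, u1, u2⟩ := hU a ha
    have hvq : v = k * 7 ^ m / 7 ^ (K + m) := by
      rw [← hk, pow_add]; field_simp
    have hP : (b : ℚ) / 7 ^ (K + m) = 2 * y + d := by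
      rw [hy, hbb]; push_cast; field_simp
    have hP' : ((b'' + k * 7 ^ m + d * 7 ^ (K + m) : ℤ) : ℚ) / 7 ^ (K + m) = y + v + d := by
      rw [hvq, hy]; push_cast; field_simp
    have had : a + d ∈ U ∧ a + 2 * d ∈ U := by
      rcases hd with rfl | rfl
      · simpa using u0
      · exact ⟨by simpa using u1, by simpa using u2⟩
    rw [hP, hP']
    constructor
    · have e1 : y + v + d + a = y + v + (a + d) := by ring
      have e2 : 2 * y + d + a = 2 * y + (a + d) := by ring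
      rw [e1, e2]
      exact (hgood _ had.1).1
    · have e1 : 2 * (y + v + d) + a = 2 * y + 2 * v + (a + 2 * d) := by ring
      have e2 : 2 * (2 * y + d) + a = 4 * y + (a + 2 * d) := by ring
      rw [e1, e2]
      exact (hgood _ had.2).2

end Pool.Agent.U684.RdQ
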