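import Pool.Agent.U684.RdQ.Cycle

set_option autoImplicit false

namespace Pool.Agent.U684.RdQ

open Filter

/-- The whole walk. -/
lemma walk {c : ℚ → Bool} (W U V : Finset ℚ)
    (hU : ∀ a ∈ W, a ∈ U ∧ a + 1 ∈ U ∧ a + 2 ∈ U)
    (hA : ∀ y, InG y → y ∉ V → ∃ v ∈ V, Good c U y v)
    (K R m : ℕ) (hm : 1 ≤ m)
    (hK : ∀ v ∈ V, ∃ k : ℤ, v * 7 ^ K = k) (hR : ∀ v ∈ V, |v| ≤ R) (i : ℕ) :
    ∃ b : ℤ, (7 : ℤ) ^ m ∣ 2 ^ i * b - 1 ∧ |b| ≤ (2 * R + 3) * 7 ^ (K + m) ∧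
      ∀ a ∈ W, c ((b : ℚ) / 7 ^ (K + m) + a) = Bool.not^[i] (c (1 / 7 ^ (K + m) + a)) ∧
        c (2 * ((b : ℚ) / 7 ^ (K + m)) + a) = Bool.not^[i] (c (2 * (1 / 7 ^ (K + m)) + a)) := by
  induction i with
  | zero =>
    refine ⟨1, by simp, ?_, ?_⟩
    · have h7z : (1 : ℤ) ≤ 7 ^ (K + m) := one_le_pow₀ (by norm_num)
      have hR0 : (0 : ℤ) ≤ R := Int.natCast_nonneg R
      rw [abs_one]
      nlinarith
    · intro a _
      simp
  | succ i ih =>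
    obtain ⟨b, hb1, hb2, hb3⟩ := ih
    obtain ⟨b', h1, h2, h3⟩ := step W U V hU hA K R m hm hK hR b i hb1 hb2
    refine ⟨b', h1, h2, ?_⟩
    intro a ha
    rw [Function.iterate_succ_apply', Function.iterate_succ_apply']
    rw [(h3 a ha).1, (h3 a ha).2, (hb3 a ha).1, (hb3 a ha).2]
    exact ⟨rfl, rfl⟩

lemma seven_dvd (m : ℕ) : (7 : ℤ) ^ m ∣ 2 ^ (3 * 7 ^ m) - 1 := by
  have h := dvd_sub_pow_of_dvd_sub (R := ℤ) (p := 7) (a := 8) (b := 1) (by norm_num) m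
  rw [one_pow] at h
  have h2 : (2 : ℤ) ^ (3 * 7 ^ m) = 8 ^ 7 ^ m := by
    rw [pow_mul]; norm_num
  rw [h2]
  refine dvd_trans ?_ h
  push_cast
  exact pow_dvd_pow 7 (Nat.le_succ m)

/-- Symmetry: bounded displacements that flip the pattern. -/
lemma flip {c : ℚ → Bool} (hc : Bad c) (W : Finset ℚ) :
    ∃ (F : Finset ℚ) (K : ℕ), (∀ w ∈ F, InG w) ∧ ∀ m : ℕ, 1 ≤ m → ∃ w ∈ F, ∀ a ∈ W,
      c (a + w + 1 / 7 ^ (K + m)) = !(c (a + 1 / 7 ^ (K + m))) ∧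
      c (a + 2 * w + 2 * (1 / 7 ^ (K + m))) = !(c (a + 2 * (1 / 7 ^ (K + m)))) := by
  classical
  let U : Finset ℚ := W ∪ W.image (fun a => a + 1) ∪ W.image (fun a => a + 2)
  have hU : ∀ a ∈ W, a ∈ U ∧ a + 1 ∈ U ∧ a + 2 ∈ U := by
    intro a ha
    refine ⟨?_, ?_, ?_⟩
    · exact Finset.mem_union_left _ (Finset.mem_union_left _ ha)
    · exact Finset.mem_union_left _ (Finset.mem_union_right _ (Finset.mem_image_of_mem _ ha))
    · exact Finset.mem_union_right _ (Finset.mem_image_of_mem _ ha)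
  obtain ⟨V, hVG, hA⟩ := claimA hc U
  obtain ⟨K, hK⟩ := common_exp V hVG
  obtain ⟨R, hR⟩ := common_bound V
  refine ⟨(Finset.Icc (-((2 * R + 3) * 7 ^ K + 1 : ℤ)) ((2 * R + 3) * 7 ^ K + 1)).image
    (fun j : ℤ => (j : ℚ) / 7 ^ K), K, ?_, ?_⟩
  · intro w hw
    rw [Finset.mem_image] at hw
    obtain ⟨j, _, rfl⟩ := hw
    exact ⟨K, j, by field_simp⟩
  · intro m hm
    obtain ⟨b, hb1, hb2, hb3⟩ := walk W U V hU hA K R m hm hK hR (3 * 7 ^ m)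
    have hodd : Odd (3 * 7 ^ m) := by
      apply Odd.mul
      · decide
      · exact Odd.pow (by decide)
    have hnot : Bool.not^[3 * 7 ^ m] = Bool.not :=
      Function.Involutive.iterate_odd (fun x => Bool.not_not x) hodd
    rw [hnot] at hb3
    -- b ≡ 1 mod 7^m
    have hdv : (7 : ℤ) ^ m ∣ b - 1 := by
      have h1 := (seven_dvd m).mul_right b
      have h2 := dvd_sub hb1 h1
      have h3 : 2 ^ (3 * 7 ^ m) * b - 1 - (2 ^ (3 * 7 ^ m) - 1) * b = b - 1 := by ring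
      rwa [h3] at h2
    obtain ⟨j, hj⟩ := hdv
    have h7m : (0 : ℤ) < 7 ^ m := by positivity
    have h7mq : (0 : ℚ) < 7 ^ m := by positivity
    have h7Kq : (0 : ℚ) < 7 ^ K := by positivity
    have hjb : |j| ≤ (2 * R + 3) * 7 ^ K + 1 := by
      have h1 : 7 ^ m * |j| ≤ 7 ^ m * ((2 * R + 3) * 7 ^ K + 1) := by
        calc 7 ^ m * |j| = |7 ^ m * j| := by rw [abs_mul, abs_of_pos h7m]
          _ = |b - 1| := by rw [hj]
          _ ≤ |b| + |1| := abs_sub _ _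
          _ ≤ (2 * R + 3) * 7 ^ (K + m) + 1 := by rw [abs_one]; linarith
          _ ≤ (2 * R + 3) * 7 ^ (K + m) + 7 ^ m := by
              have : (1 : ℤ) ≤ 7 ^ m := h7m
              linarith
          _ = 7 ^ m * ((2 * R + 3) * 7 ^ K + 1) := by rw [pow_add]; ring
      exact le_of_mul_le_mul_left h1 h7m
    refine ⟨(j : ℚ) / 7 ^ K, ?_, ?_⟩
    · rw [Finset.mem_image]
      refine ⟨j, ?_, rfl⟩
      rw [Finset.mem_Icc]
      exact abs_le.mp hjb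
    · intro a ha
      have hbq : (b : ℚ) / 7 ^ (K + m) = (j : ℚ) / 7 ^ K + 1 / 7 ^ (K + m) := by
        have : (b : ℚ) = 7 ^ m * j + 1 := by
          have h : b = 7 ^ m * j + 1 := by linarith
          rw [h]; push_cast; ring
        rw [this, pow_add]
        field_simp
      obtain ⟨h1, h2⟩ := hb3 a ha
      rw [hbq] at h1 h2
      constructor
      · have e1 : a + (j : ℚ) / 7 ^ K + 1 / 7 ^ (K + m) =
          (j : ℚ) / 7 ^ K + 1 / 7 ^ (K + m) + a := by ring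
        have e2 : a + 1 / 7 ^ (K + m) = 1 / 7 ^ (K + m) + a := by ring
        rw [e1, e2, h1]
      · have e1 : a + 2 * ((j : ℚ) / 7 ^ K) + 2 * (1 / 7 ^ (K + m)) =
          2 * ((j : ℚ) / 7 ^ K + 1 / 7 ^ (K + m)) + a := by ring
        have e2 : a + 2 * (1 / 7 ^ (K + m)) = 2 * (1 / 7 ^ (K + m)) + a := by ring
        rw [e1, e2, h2]

/-- `φ v = lim c (v + 7^{-n})`. -/
noncomputable def phi (c : ℚ → Bool) (v : ℚ) : Bool := ulim (fun n => c (v + 1 / 7 ^ n))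

/-- `ψ v = lim c (v + 2 * 7^{-n})`. -/
noncomputable def psi (c : ℚ → Bool) (v : ℚ) : Bool := ulim (fun n => c (v + 2 * (1 / 7 ^ n)))

lemma phi_spec (c : ℚ → Bool) (v : ℚ) :
    ∀ᶠ n in (hyperfilter ℕ : Filter ℕ), c (v + 1 / 7 ^ n) = phi c v :=
  ulim_spec (fun n => c (v + 1 / 7 ^ n))

lemma psi_spec (c : ℚ → Bool) (v : ℚ) :
    ∀ᶠ n in (hyperfilter ℕ : Filter ℕ), c (v + 2 * (1 / 7 ^ n)) = psi c v :=
  ulim_spec (fun n => c (v + 2 * (1 / 7 ^ n)))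

lemma sym {c : ℚ → Bool} (hc : Bad c) (W : Finset ℚ) :
    ∃ t : ℚ, InG t ∧ ∀ a ∈ W, phi c (a + t) = !(phi c a) ∧ psi c (a + 2 * t) = !(psi c a) := by
  classical
  obtain ⟨F, K, hFG, hF⟩ := flip hc W
  have h1 : ∀ᶠ n in (hyperfilter ℕ : Filter ℕ), ∃ w ∈ F, ∀ a ∈ W,
      c (a + w + 1 / 7 ^ n) = !(c (a + 1 / 7 ^ n)) ∧
      c (a + 2 * w + 2 * (1 / 7 ^ n)) = !(c (a + 2 * (1 / 7 ^ n))) := by
    filter_upwards [ev_ne K] with n hn
    obtain ⟨w, hw, h⟩ := hF (n - K) (by omega)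
    have : K + (n - K) = n := by omega
    rw [this] at h
    exact ⟨w, hw, h⟩
  have h2 : ∃ w ∈ F, ∀ᶠ n in (hyperfilter ℕ : Filter ℕ), ∀ a ∈ W,
      c (a + w + 1 / 7 ^ n) = !(c (a + 1 / 7 ^ n)) ∧
      c (a + 2 * w + 2 * (1 / 7 ^ n)) = !(c (a + 2 * (1 / 7 ^ n))) := by
    by_contra hcon
    have h3 : ∀ᶠ n in (hyperfilter ℕ : Filter ℕ), ∀ w ∈ F, ¬ ∀ a ∈ W,
        c (a + w + 1 / 7 ^ n) = !(c (a + 1 / 7 ^ n)) ∧
        c (a + 2 * w + 2 * (1 / 7 ^ n)) = !(c (a + 2 * (1 / 7 ^ n))) := by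
      rw [Filter.eventually_all_finset]
      intro w hw
      exact Ultrafilter.eventually_not.mpr (fun h => hcon ⟨w, hw, h⟩)
    obtain ⟨n, hn1, hn2⟩ := (h1.and h3).exists
    obtain ⟨w, hw, hh⟩ := hn1
    exact hn2 w hw hh
  obtain ⟨w, hw, hev⟩ := h2
  refine ⟨w, hFG w hw, ?_⟩
  intro a ha
  constructor
  · obtain ⟨n, ⟨hn1, hn2⟩, hn3⟩ :=
      ((hev.and (phi_spec c (a + w))).and (phi_spec c a)).exists
    rw [← hn2, ← hn3]
    exact (hn1 a ha).1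
  · obtain ⟨n, ⟨hn1, hn2⟩, hn3⟩ :=
      ((hev.and (psi_spec c (a + 2 * w))).and (psi_spec c a)).exists
    rw [← hn2, ← hn3]
    exact (hn1 a ha).2

end Pool.Agent.U684.RdQ
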